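import Pool.Agent.helper70.BND.SpecH

/-!
# Project bnd, block H, row LAT: a basis of the annihilator
-/

set_option autoImplicit false

open scoped Topology
open Finset

namespace Pool.Agent.BND.EX

/-- the integral vectors `z` with `∑ z v • th v ∈ H'` -/
def LAT_Kr {H : Type} [AddCommGroup H] (H' : AddSubgroup H) (n : ℕ) (th : ℕ → H) : Submodule ℤ (Fin n → ℤ) where
  carrier := {z | ∑ v : Fin n, z v • th v ∈ H'}
  add_mem' := by
    intro z z' hz hz'
    have h : ∑ v : Fin n, (z + z') v • th v = ∑ v : Fin n, z v • th v + ∑ v : Fin n, z' v • th v := by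
      rw [← Finset.sum_add_distrib]
      exact Finset.sum_congr rfl fun v _ => add_smul (z v) (z' v) (th v)
    change ∑ v : Fin n, (z + z') v • th v ∈ H'
    rw [h]
    exact H'.add_mem hz hz'
  zero_mem' := by
    have h : ∑ v : Fin n, (0 : Fin n → ℤ) v • th v = 0 := Finset.sum_eq_zero fun v _ => zero_smul ℤ (th v)
    change ∑ v : Fin n, (0 : Fin n → ℤ) v • th v ∈ H'
    rw [h]
    exact H'.zero_mem
  smul_mem' := by
    intro a z hz
    have h : ∑ v : Fin n, (a • z) v • th v = a • ∑ v : Fin n, z v • th v := by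
      rw [Finset.smul_sum]
      exact Finset.sum_congr rfl fun v _ => mul_smul a (z v) (th v)
    change ∑ v : Fin n, (a • z) v • th v ∈ H'
    rw [h]
    exact H'.zsmul_mem hz a

theorem LAT_tf {H : Type} [AddCommGroup H] (H' : AddSubgroup H) (ht : ∀ (n : ℕ) (x : H), 1 ≤ n → n • x ∈ H' → x ∈ H')
    (n : ℕ) (th : ℕ → H) (a : ℤ) (ha : a ≠ 0) (z : Fin n → ℤ) (hz : a • z ∈ LAT_Kr H' n th) : z ∈ LAT_Kr H' n th := by
  have h : ∑ v : Fin n, (a • z) v • th v = a • ∑ v : Fin n, z v • th v := by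
    rw [Finset.smul_sum]
    exact Finset.sum_congr rfl fun v _ => mul_smul a (z v) (th v)
  have hz' : ∑ v : Fin n, (a • z) v • th v ∈ H' := hz
  rw [h] at hz'
  have h1 : 1 ≤ a.natAbs := Int.natAbs_pos.mpr ha
  refine ht a.natAbs _ h1 ?_
  rcases Int.natAbs_eq a with h2 | h2
  · rw [h2, natCast_zsmul] at hz'
    exact hz'
  · rw [h2, neg_smul, natCast_zsmul] at hz'
    have h3 := H'.neg_mem hz'
    rw [neg_neg] at h3
    exact h3

theorem LAT : LAT_stmt := by
  intro H _ H' ht n h th
  classical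
  have htf : ∀ (a : ℤ) (y : (Fin n → ℤ) ⧸ LAT_Kr H' n th), a • y = 0 → a = 0 ∨ y = 0 := by
    intro a y hy
    by_cases ha : a = 0
    · exact Or.inl ha
    · right
      obtain ⟨z, rfl⟩ := Submodule.Quotient.mk_surjective _ y
      rw [← Submodule.Quotient.mk_smul, Submodule.Quotient.mk_eq_zero] at hy
      rw [Submodule.Quotient.mk_eq_zero]
      exact LAT_tf H' ht n th a ha z hy
  haveI : Module.IsTorsionFree ℤ ((Fin n → ℤ) ⧸ LAT_Kr H' n th) := by
    refine Module.IsTorsionFree.mk fun a ha => ?_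
    intro y y' hyy
    have h1 : a • (y - y') = 0 := by
      rw [smul_sub, sub_eq_zero]
      exact hyy
    rcases htf a _ h1 with h2 | h2
    · exact absurd h2 ha.ne_zero
    · exact sub_eq_zero.mp h2
  haveI : Module.Free ℤ ((Fin n → ℤ) ⧸ LAT_Kr H' n th) := Module.free_of_finite_type_torsion_free'
  let b := Module.finBasis ℤ ((Fin n → ℤ) ⧸ LAT_Kr H' n th)
  obtain ⟨k, hk⟩ : ∃ k, k = Module.finrank ℤ ((Fin n → ℤ) ⧸ LAT_Kr H' n th) := ⟨_, rfl⟩
  rw [← hk] at b
  let c : ℕ → ℕ → ℤ := fun j v => if hj : j < k then (if hv : v < n then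
    b.repr (Submodule.Quotient.mk (Pi.single ⟨v, hv⟩ 1)) ⟨j, hj⟩ else 0) else 0
  have hc : ∀ (j : Fin k) (v : Fin n), c j v = b.repr (Submodule.Quotient.mk (Pi.single v 1)) j := by
    intro j v
    simp only [c, dif_pos j.2, dif_pos v.2]
  have hsum : ∀ z : Fin n → ℤ, (Submodule.Quotient.mk z : (Fin n → ℤ) ⧸ LAT_Kr H' n th) =
      ∑ v : Fin n, z v • Submodule.Quotient.mk (Pi.single v 1) := by
    intro z
    have h1 : z = ∑ v : Fin n, z v • (Pi.single v 1 : Fin n → ℤ) := by
      funext i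
      rw [Finset.sum_apply, Finset.sum_eq_single i]
      · rw [Pi.smul_apply, Pi.single_eq_same, smul_eq_mul, mul_one]
      · intro j _ hj
        rw [Pi.smul_apply, Pi.single_eq_of_ne (Ne.symm hj), smul_zero]
      · intro hi
        exact absurd (Finset.mem_univ i) hi
    conv_lhs => rw [h1]
    change (LAT_Kr H' n th).mkQ _ = _
    rw [map_sum]
    refine Finset.sum_congr rfl fun v _ => ?_
    rw [map_smul]
    rfl
  have hkey : ∀ (z : Fin n → ℤ) (j : Fin k), ∑ v : Fin n, c j v * z v = b.repr (Submodule.Quotient.mk z) j := by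
    intro z j
    rw [hsum z, map_sum, Finsupp.finset_sum_apply]
    refine Finset.sum_congr rfl fun v _ => ?_
    rw [map_smul, Finsupp.smul_apply, smul_eq_mul, hc, mul_comm]
  refine ⟨k, c, ?_, ?_, ?_⟩
  · intro z
    change ∑ v ∈ range n, z v • th v ∈ H' ↔ ∀ j, j < k → ∑ v ∈ range n, c j v * z v = 0
    have h1 : ∑ v ∈ range n, z v • th v ∈ H' ↔
        (Submodule.Quotient.mk (fun v : Fin n => z v) : (Fin n → ℤ) ⧸ LAT_Kr H' n th) = 0 := by
      rw [Submodule.Quotient.mk_eq_zero, Finset.sum_range (fun v => z v • th v)]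
      exact Iff.rfl
    rw [h1]
    constructor
    · intro h2 j hj
      rw [Finset.sum_range (fun v => c j v * z v)]
      rw [hkey (fun v : Fin n => z v) ⟨j, hj⟩, h2, map_zero]
      rfl
    · intro h2
      apply b.repr.injective
      rw [map_zero]
      ext j
      rw [← hkey (fun v : Fin n => z v) j]
      have h3 := h2 j j.2
      rw [Finset.sum_range (fun v => c j v * z v)] at h3
      exact h3
  · intro nn
    change ∃ z : ℕ → ℤ, ∀ j, j < k → ∑ v ∈ range n, c j v * z v = nn j
    obtain ⟨z, hz⟩ := Submodule.Quotient.mk_surjective (LAT_Kr H' n th) (∑ j : Fin k, nn j • b j)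
    refine ⟨fun v => if hv : v < n then z ⟨v, hv⟩ else 0, fun j hj => ?_⟩
    rw [Finset.sum_range (fun v => c j v * (if hv : v < n then z ⟨v, hv⟩ else 0))]
    have h1 : ∑ v : Fin n, c j v * (if hv : (v : ℕ) < n then z ⟨v, hv⟩ else 0) = ∑ v : Fin n, c j v * z v := by
      refine Finset.sum_congr rfl fun v _ => ?_
      rw [dif_pos v.2]
    rw [h1, hkey z ⟨j, hj⟩, hz, map_sum, Finsupp.finset_sum_apply, Finset.sum_eq_single ⟨j, hj⟩]
    · rw [map_smul, Module.Basis.repr_self, Finsupp.smul_apply, Finsupp.single_eq_same, smul_eq_mul, mul_one]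
    · intro i _ hi
      rw [map_smul, Module.Basis.repr_self, Finsupp.smul_apply, Finsupp.single_eq_of_ne (Ne.symm hi), smul_zero]
    · intro hi
      exact absurd (Finset.mem_univ _) hi
  · intro x hx
    change ∃ a : ℕ → ℤ, ∀ v, v < n → x v = ∑ j ∈ range k, a j * c j v
    let L : (Fin n → ℤ) →ₗ[ℤ] ℤ := ∑ v : Fin n, x v • LinearMap.proj v
    have hL : ∀ z : Fin n → ℤ, L z = ∑ v : Fin n, x v * z v := by
      intro z
      simp only [L, LinearMap.sum_apply, LinearMap.smul_apply, LinearMap.proj_apply, smul_eq_mul]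
    have hker : LAT_Kr H' n th ≤ LinearMap.ker L := by
      intro z hz
      rw [LinearMap.mem_ker, hL]
      have hz' : ∑ v : Fin n, z v • th v ∈ H' := hz
      have h1 : ∑ v ∈ range n, (if hv : v < n then z ⟨v, hv⟩ else 0) • th v = ∑ v : Fin n, z v • th v := by
        rw [Finset.sum_range (fun v => (if hv : v < n then z ⟨v, hv⟩ else 0) • th v)]
        refine Finset.sum_congr rfl fun v _ => ?_
        rw [dif_pos v.2]
      have h2 := hx (fun v => if hv : v < n then z ⟨v, hv⟩ else 0) (by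
        change ∑ v ∈ range n, (if hv : v < n then z ⟨v, hv⟩ else 0) • th v ∈ H'
        rw [h1]
        exact hz')
      have h3 : ∑ v ∈ range n, x v * (if hv : v < n then z ⟨v, hv⟩ else 0) = ∑ v : Fin n, x v * z v := by
        rw [Finset.sum_range (fun v => x v * (if hv : v < n then z ⟨v, hv⟩ else 0))]
        refine Finset.sum_congr rfl fun v _ => ?_
        rw [dif_pos v.2]
      rw [← h3]
      exact h2
    let L' := (LAT_Kr H' n th).liftQ L hker
    refine ⟨fun j => if hj : j < k then L' (b ⟨j, hj⟩) else 0, fun v hv => ?_⟩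
    rw [Finset.sum_range (fun j => (if hj : j < k then L' (b ⟨j, hj⟩) else 0) * c j v)]
    have h1 : L' (Submodule.Quotient.mk (Pi.single ⟨v, hv⟩ 1)) = x v := by
      change L (Pi.single ⟨v, hv⟩ 1) = x v
      rw [hL, Finset.sum_eq_single ⟨v, hv⟩]
      · rw [Pi.single_eq_same, mul_one]
      · intro i _ hi
        rw [Pi.single_eq_of_ne hi, mul_zero]
      · intro hi
        exact absurd (Finset.mem_univ _) hi
    rw [← h1]
    conv_lhs => rw [← b.sum_repr (Submodule.Quotient.mk (Pi.single ⟨v, hv⟩ 1))]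
    rw [map_sum]
    refine Finset.sum_congr rfl fun j _ => ?_
    rw [map_smul, dif_pos j.2, smul_eq_mul, mul_comm]
    have h2 := hc j ⟨v, hv⟩
    rw [← h2]

end Pool.Agent.BND.EX
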