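import Pool.Agent.helper70.BND.SpecH

/-!
# Project bnd, block H, row RK1: rank one
-/

set_option autoImplicit false

open scoped Topology
open Finset

namespace Pool.Agent.BND.EX

/-- Bilinearity of the scalar product. -/
theorem RK1_dot (n : ℕ) (u z z' : ℕ → ℤ) (a b : ℤ) :
    ∑ v ∈ range n, u v * (a * z v - b * z' v) =
      a * (∑ v ∈ range n, u v * z v) - b * ∑ v ∈ range n, u v * z' v := by
  rw [Finset.mul_sum, Finset.mul_sum, ← Finset.sum_sub_distrib]
  refine Finset.sum_congr rfl fun v _ => ?_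
  ring

theorem RK1_comb (n : ℕ) (u u' z : ℕ → ℤ) (a b : ℤ) :
    ∑ v ∈ range n, (a * u v + b * u' v) * z v =
      a * (∑ v ∈ range n, u v * z v) + b * ∑ v ∈ range n, u' v * z v := by
  rw [Finset.mul_sum, Finset.mul_sum, ← Finset.sum_add_distrib]
  refine Finset.sum_congr rfl fun v _ => ?_
  ring

theorem RK1_smul {H : Type} [AddCommGroup H] (n : ℕ) (th : ℕ → H) (z z' : ℕ → ℤ) (a b : ℤ)
    (h : a • (∑ v ∈ range n, z v • th v) = b • ∑ v ∈ range n, z' v • th v) :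
    ∑ v ∈ range n, (a * z v - b * z' v) • th v = 0 := by
  have h1 : ∑ v ∈ range n, (a * z v - b * z' v) • th v =
      a • (∑ v ∈ range n, z v • th v) - b • ∑ v ∈ range n, z' v • th v := by
    rw [Finset.smul_sum, Finset.smul_sum, ← Finset.sum_sub_distrib]
    refine Finset.sum_congr rfl fun v _ => ?_
    rw [sub_smul, mul_smul, mul_smul]
  rw [h1, h, sub_self]

/-- The identity of the second case. -/
theorem RK1_fin (n k : ℕ) (c : ℕ → ℕ → ℤ) (x y w : ℕ → ℤ) (p q : ℤ) (r r' : ℕ → ℤ)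
    (hx : ∀ v, v < n → x v + (-p) * w v = ∑ j ∈ range k, r j * c j v)
    (hy : ∀ v, v < n → y v + (-q) * w v = ∑ j ∈ range k, r' j * c j v) :
    ∀ a b, a < n → b < n → x a * y b - x b * y a =
      ∑ j ∈ range k, ((x a * r' j - q * w a * r j) * c j b - (x b * r' j - q * w b * r j) * c j a) := by
  intro a b ha hb
  have h1 : ∀ s t : ℕ, s < n → t < n → ∑ j ∈ range k, (x s * r' j - q * w s * r j) * c j t =
      x s * (y t + (-q) * w t) - q * w s * (x t + (-p) * w t) := by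
    intro s t hs ht
    rw [hx t ht, hy t ht, Finset.mul_sum, Finset.mul_sum, ← Finset.sum_sub_distrib]
    refine Finset.sum_congr rfl fun j _ => ?_
    ring
  rw [Finset.sum_sub_distrib, h1 a b ha hb, h1 b a hb ha]
  ring

theorem RK1 : RK1_stmt := by
  intro H _ H' hR A th hA x y hx hy
  have hc : ∀ z z' : ℕ → ℤ, ∑ v ∈ range A.n, z v • th v ∈ H' → ∑ v ∈ range A.n, z' v • th v ∈ H' →
      (∑ v ∈ range A.n, x v * z v) * (∑ v ∈ range A.n, y v * z' v) =
        (∑ v ∈ range A.n, x v * z' v) * (∑ v ∈ range A.n, y v * z v) := by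
    intro z z' hz hz'
    obtain ⟨a, b, hab, h⟩ := hR _ hz _ hz'
    have h0 := RK1_smul A.n th z z' a b h
    have h1 := hx (fun v => a * z v - b * z' v) h0
    have h2 := hy (fun v => a * z v - b * z' v) h0
    have h1' : a * (∑ v ∈ range A.n, x v * z v) - b * ∑ v ∈ range A.n, x v * z' v = 0 := by
      rw [← RK1_dot]
      exact h1
    have h2' : a * (∑ v ∈ range A.n, y v * z v) - b * ∑ v ∈ range A.n, y v * z' v = 0 := by
      rw [← RK1_dot]
      exact h2
    rcases hab with ha | hb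
    · apply mul_left_cancel₀ ha
      linear_combination (∑ v ∈ range A.n, y v * z' v) * h1' - (∑ v ∈ range A.n, x v * z' v) * h2'
    · apply mul_left_cancel₀ hb
      linear_combination (∑ v ∈ range A.n, y v * z v) * h1' - (∑ v ∈ range A.n, x v * z v) * h2'
  by_cases h0 : ∀ z : ℕ → ℤ, ∑ v ∈ range A.n, z v • th v ∈ H' →
      ∑ v ∈ range A.n, x v * z v = 0 ∧ ∑ v ∈ range A.n, y v * z v = 0
  · obtain ⟨r, hr⟩ := hA.ann x fun z hz => (h0 z hz).1
    obtain ⟨r', hr'⟩ := hA.ann y fun z hz => (h0 z hz).2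
    refine ⟨fun a j => x a * r' j - 0 * x a * r j, ?_⟩
    exact RK1_fin A.n A.k A.c x y x 0 0 r r' (fun v hv => by rw [← hr v hv]; ring) (fun v hv => by rw [← hr' v hv]; ring)
  · push Not at h0
    obtain ⟨z₀, hz₀, hPQ⟩ := h0
    obtain ⟨P, hP⟩ : ∃ P, P = ∑ v ∈ range A.n, x v * z₀ v := ⟨_, rfl⟩
    obtain ⟨Q, hQ⟩ : ∃ Q, Q = ∑ v ∈ range A.n, y v * z₀ v := ⟨_, rfl⟩
    rw [← hP, ← hQ] at hPQ
    have hg : (Int.gcd P Q : ℤ) ≠ 0 := by
      intro h
      have h1 : Int.gcd P Q = 0 := by exact_mod_cast h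
      rw [Int.gcd_eq_zero_iff] at h1
      exact hPQ h1.1 h1.2
    obtain ⟨p, hp⟩ := Int.gcd_dvd_left P Q
    obtain ⟨q, hq⟩ := Int.gcd_dvd_right P Q
    have hbz : (Int.gcd P Q : ℤ) = P * Int.gcdA P Q + Q * Int.gcdB P Q := Int.gcd_eq_gcd_ab P Q
    obtain ⟨α, hα⟩ : ∃ α, α = Int.gcdA P Q := ⟨_, rfl⟩
    obtain ⟨β, hβ⟩ : ∃ β, β = Int.gcdB P Q := ⟨_, rfl⟩
    obtain ⟨g, hgg⟩ : ∃ g : ℤ, g = (Int.gcd P Q : ℤ) := ⟨_, rfl⟩
    rw [← hgg] at hg hp hq hbz
    rw [← hα, ← hβ] at hbz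
    have h1 : α * p + β * q = 1 := by
      apply mul_left_cancel₀ hg
      linear_combination (-1 : ℤ) * hbz - α * hp - β * hq
    have hk : ∀ z : ℕ → ℤ, ∑ v ∈ range A.n, z v • th v ∈ H' →
        (∑ v ∈ range A.n, x v * z v) * q = p * ∑ v ∈ range A.n, y v * z v := by
      intro z hz
      have h2 := hc z z₀ hz hz₀
      rw [← hP, ← hQ, hp, hq] at h2
      apply mul_left_cancel₀ hg
      linear_combination h2
    have hw : ∀ z : ℕ → ℤ, ∑ v ∈ range A.n, (α * x v + β * y v) * z v =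
        α * (∑ v ∈ range A.n, x v * z v) + β * ∑ v ∈ range A.n, y v * z v := fun z => RK1_comb A.n x y z α β
    have hx1 : ∃ r : ℕ → ℤ, ∀ v, v < A.n → (1 * x v + (-p) * (α * x v + β * y v)) = ∑ j ∈ range A.k, r j * A.c j v := by
      apply hA.ann
      intro z hz
      rw [RK1_comb A.n x (fun v => α * x v + β * y v) z 1 (-p), hw]
      linear_combination (-1 : ℤ) * (∑ v ∈ range A.n, x v * z v) * h1 + β * hk z hz
    have hy1 : ∃ r : ℕ → ℤ, ∀ v, v < A.n → (1 * y v + (-q) * (α * x v + β * y v)) = ∑ j ∈ range A.k, r j * A.c j v := by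
      apply hA.ann
      intro z hz
      rw [RK1_comb A.n y (fun v => α * x v + β * y v) z 1 (-q), hw]
      linear_combination (-1 : ℤ) * (∑ v ∈ range A.n, y v * z v) * h1 - α * hk z hz
    obtain ⟨r, hr⟩ := hx1
    obtain ⟨r', hr'⟩ := hy1
    refine ⟨fun a j => x a * r' j - q * (α * x a + β * y a) * r j, ?_⟩
    exact RK1_fin A.n A.k A.c x y (fun v => α * x v + β * y v) p q r r' (fun v hv => by rw [← hr v hv]; ring)
      (fun v hv => by rw [← hr' v hv]; ring)

end Pool.Agent.BND.EX
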